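import Pool.Agent.U562.HD.Gj
import Pool.Agent.U562.WV.Stm
set_option autoImplicit false

/-! Project WV, job PIE: the heat means of a function off a set -/

namespace Pool.Agent.U88.WV.PIE

open MeasureTheory Set Metric Complex Filter Topology
open scoped ENNReal NNReal FourierTransform RealInnerProductSpace SchwartzMap Real
open Pool.Agent.U562.WV
open Pool.Agent.U562.HD (Gs Gs_nonneg Gs_cont Gs_neg Gs_sub_comm Gs_integral Gs_integrable
  Gs_lintegral cG cG_pos Gs_poly Pm Pm_univ Pm_fin Gb Gb_meas Gb_lp seg_meas)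

/-- the heat mean as a convolution -/
lemma rep {f : E 3 → ℂ} (hf : Integrable f) {a : ℝ} (ha : 0 < a) (y : E 3) :
    inv (fun ξ => ht a ξ * 𝓕 f ξ) y = ∫ x, f x * (Gs (4 * a) (y - x) : ℂ) := by
  have hb : 0 < (((4 * π ^ 2 * a : ℝ) : ℂ)).re := by rw [ofReal_re]; positivity
  have J : Integrable (fun w : E 3 ↦ cexp (-((4 * π ^ 2 * a : ℝ) : ℂ) * ‖w‖ ^ 2 +
      2 * π * I * ⟪y, w⟫)) :=
    GaussianFourier.integrable_cexp_neg_mul_sq_norm_add hb _ _
  have h1 : ∫ w : E 3, cexp (-((4 * π ^ 2 * a : ℝ) : ℂ) * ‖w‖ ^ 2 + 2 * π * I * ⟪y, w⟫) • 𝓕 f w =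
      ∫ w : E 3, 𝓕 (fun w : E 3 ↦ cexp (-((4 * π ^ 2 * a : ℝ) : ℂ) * ‖w‖ ^ 2 +
        2 * π * I * ⟪y, w⟫)) w • f w := by
    simpa using! (VectorFourier.integral_fourierIntegral_smul_eq_flip (L := innerₗ (E 3))
      Real.continuous_fourierChar continuous_inner J hf).symm
  have e1 : inv (fun ξ => ht a ξ * 𝓕 f ξ) y =
      ∫ w : E 3, cexp (-((4 * π ^ 2 * a : ℝ) : ℂ) * ‖w‖ ^ 2 + 2 * π * I * ⟪y, w⟫) • 𝓕 f w := by
    unfold inv ht
    congr 1
    funext ξ
    rw [smul_eq_mul, ← mul_assoc, Complex.exp_add]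
    congr 1
    rw [mul_comm]
    congr 1
    · push_cast
      congr 1; ring
    · push_cast
      congr 1; ring
  rw [e1, h1]
  congr 1
  funext x
  rw [fourier_gaussian_innerProductSpace' hb, smul_eq_mul, mul_comm]
  congr 1
  unfold Gs
  push_cast
  have e2 : ((π : ℂ) / (4 * (π : ℂ) ^ 2 * a)) ^ ((Module.finrank ℝ (E 3) : ℂ) / 2) =
      (((π * (4 * a)) ^ (-(Module.finrank ℝ (E 3) / 2 : ℝ)) : ℝ) : ℂ) := by
    rw [Real.rpow_neg (by positivity), ← Real.inv_rpow (by positivity), Complex.ofReal_cpow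
      (by positivity)]
    push_cast
    congr 1
    have : (π : ℂ) ≠ 0 := by exact_mod_cast Real.pi_ne_zero
    have ha' : (a : ℂ) ≠ 0 := by exact_mod_cast ha.ne'
    field_simp
  rw [e2]
  push_cast
  congr 2
  have : (π : ℂ) ≠ 0 := by exact_mod_cast Real.pi_ne_zero
  have ha' : (a : ℂ) ≠ 0 := by exact_mod_cast ha.ne'
  field_simp

/-- the derivative of the Gaussian -/
noncomputable def D (a : ℝ) (z : E 3) : E 3 →L[ℝ] ℂ :=
  Complex.ofRealCLM.comp ((-(2 / (4 * a)) * Gs (4 * a) z) • innerSL ℝ z)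

lemma D_deriv (a : ℝ) (z : E 3) :
    HasFDerivAt (fun z : E 3 => (Gs (4 * a) z : ℂ)) (D a z) z := by
  have h0 : HasFDerivAt (fun x : E 3 => ‖x‖ ^ 2) ((2 : ℝ) • innerSL ℝ z) z := by
    have := (hasStrictFDerivAt_norm_sq z).hasFDerivAt
    simpa [two_smul] using this
  have h1 : HasFDerivAt (fun z : E 3 => Gs (4 * a) z)
      ((-(2 / (4 * a)) * Gs (4 * a) z) • innerSL ℝ z) z := by
    unfold Gs
    have h2 := ((h0.mul_const (-(1 / (4 * a)))).exp).const_mul
      ((π * (4 * a)) ^ (-(Module.finrank ℝ (E 3) / 2 : ℝ)))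
    have e : (fun z : E 3 => (π * (4 * a)) ^ (-(Module.finrank ℝ (E 3) / 2 : ℝ)) *
        rexp (-(‖z‖ ^ 2) / (4 * a))) = fun z : E 3 =>
        (π * (4 * a)) ^ (-(Module.finrank ℝ (E 3) / 2 : ℝ)) *
        rexp (‖z‖ ^ 2 * (-(1 / (4 * a)))) := by
      funext z; congr 2; ring
    rw [e]
    refine h2.congr_fderiv ?_
    ext w
    simp only [FunLike.coe_smul, Pi.smul_apply, smul_eq_mul]
    have e3 : -(‖z‖ ^ 2) / (4 * a) = ‖z‖ ^ 2 * (-(1 / (4 * a))) := by ring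
    rw [e3]
    ring
  exact Complex.ofRealCLM.hasFDerivAt.comp z h1

lemma D_norm {a : ℝ} (ha : 0 < a) (z : E 3) :
    ‖D a z‖ ≤ 1 / (2 * a) * (‖z‖ * Gs (4 * a) z) := by
  have hG := Gs_nonneg (show 0 < 4 * a by positivity) z
  refine ContinuousLinearMap.opNorm_le_bound _ (by positivity) fun w => ?_
  unfold D
  simp only [ContinuousLinearMap.comp_apply, FunLike.coe_smul, Pi.smul_apply, smul_eq_mul,
    ofRealCLM_apply, Complex.norm_real, innerSL_apply_apply, norm_mul]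
  rw [Real.norm_eq_abs, Real.norm_eq_abs, Real.norm_eq_abs, abs_neg,
    abs_of_pos (show 0 < 2 / (4 * a) by positivity), abs_of_nonneg hG]
  have := abs_real_inner_le_norm z w
  calc 2 / (4 * a) * Gs (4 * a) z * |⟪z, w⟫| ≤ 2 / (4 * a) * Gs (4 * a) z * (‖z‖ * ‖w‖) := by
        gcongr
    _ = _ := by field_simp; ring

lemma D_cont (a : ℝ) : Continuous (D a) := by
  unfold D
  have h1 : Continuous fun z : E 3 => (-(2 / (4 * a)) * Gs (4 * a) z) :=
    continuous_const.mul (Gs_cont _)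
  have h2 : Continuous fun z : E 3 => innerSL ℝ z := (innerSL ℝ).continuous
  exact (ContinuousLinearMap.compL ℝ (E 3) ℝ ℂ Complex.ofRealCLM).continuous.comp (h1.smul h2)

lemma D_neg (a : ℝ) (z : E 3) : D a (-z) = -D a z := by
  unfold D
  rw [Gs_neg, map_neg, smul_neg, ContinuousLinearMap.comp_neg]

/-! ### kernel estimates -/

lemma Gs_scale {δ c : ℝ} (hδ : 0 < δ) (h1 : 2 * δ ^ 2 ≤ c) (h2 : c ≤ 32 * δ ^ 2) (z : E 3) :
    Gs c z ≤ 64 * Gs (32 * δ ^ 2) z := by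
  have hc : 0 < c := lt_of_lt_of_le (by positivity) h1
  unfold Gs
  have hn : Module.finrank ℝ (E 3) = 3 := by simp
  rw [hn]
  have e1 : (π * c) ^ (-((3 : ℕ) / 2 : ℝ)) ≤ 64 * (π * (32 * δ ^ 2)) ^ (-((3 : ℕ) / 2 : ℝ)) := by
    have h3 : (π * (32 * δ ^ 2)) / 16 ≤ π * c := by
      have := Real.pi_pos
      nlinarith
    calc (π * c) ^ (-((3 : ℕ) / 2 : ℝ)) ≤ ((π * (32 * δ ^ 2)) / 16) ^ (-((3 : ℕ) / 2 : ℝ)) :=
          Real.rpow_le_rpow_of_nonpos (by positivity) h3 (by norm_num)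
      _ = 64 * (π * (32 * δ ^ 2)) ^ (-((3 : ℕ) / 2 : ℝ)) := by
          rw [Real.div_rpow (by positivity) (by norm_num)]
          have : (16 : ℝ) ^ (-((3 : ℕ) / 2 : ℝ)) = 1 / 64 := by
            rw [show (16 : ℝ) = 4 ^ (2 : ℝ) by norm_num, ← Real.rpow_mul (by norm_num),
              show (2 : ℝ) * (-((3 : ℕ) / 2 : ℝ)) = -(3 : ℕ) by push_cast; ring,
              Real.rpow_neg (by norm_num), Real.rpow_natCast]
            norm_num
          rw [this]; ring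
  have e2 : rexp (-(‖z‖ ^ 2) / c) ≤ rexp (-(‖z‖ ^ 2) / (32 * δ ^ 2)) := by
    apply Real.exp_le_exp.mpr
    rw [neg_div, neg_div]
    apply neg_le_neg
    gcongr
  calc (π * c) ^ (-((3 : ℕ) / 2 : ℝ)) * rexp (-(‖z‖ ^ 2) / c)
      ≤ (64 * (π * (32 * δ ^ 2)) ^ (-((3 : ℕ) / 2 : ℝ))) * rexp (-(‖z‖ ^ 2) / (32 * δ ^ 2)) := by
        gcongr
    _ = _ := by ring

/-- the kernel estimate -/
lemma KE {δ a : ℝ} (hδ : 0 < δ) (h1 : δ ^ 2 / 4 ≤ a) (h2 : a ≤ 4 * δ ^ 2) (z : E 3) :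
    (1 + ‖z‖ / δ) ^ 2 * Gs (4 * a) z ≤ 576 * cG (E 3) * Gs (32 * δ ^ 2) z := by
  have ha : 0 < a := lt_of_lt_of_le (by positivity) h1
  have hz := norm_nonneg z
  set d := Real.sqrt (4 * a / 3) with hd
  have hd2 : 3 * d ^ 2 = 4 * a := by rw [hd, Real.sq_sqrt (by positivity)]; ring
  have hd0 : 0 < d := Real.sqrt_pos.mpr (by positivity)
  have hdδ : d ≤ 3 * δ := by
    rw [hd]; apply Real.sqrt_le_iff.mpr
    exact ⟨by positivity, by nlinarith⟩
  have h3 : 1 + ‖z‖ / δ ≤ 3 * (1 + ‖z‖ / d) := by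
    have : ‖z‖ / δ ≤ 3 * (‖z‖ / d) := by
      rw [← mul_div_assoc, div_le_div_iff₀ hδ hd0]
      nlinarith
    linarith
  have h4 := Gs_poly hd0 z
  have h5 : Gs (6 * d ^ 2) z ≤ 64 * Gs (32 * δ ^ 2) z := by
    apply Gs_scale hδ <;> nlinarith
  have hG := Gs_nonneg (show 0 < 4 * a by positivity) z
  have h6 : (1 + ‖z‖ / d) ^ 2 ≤ (1 + ‖z‖ / d) ^ 4 :=
    pow_le_pow_right₀ (by have : 0 ≤ ‖z‖ / d := by positivity
                          linarith) (by norm_num)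
  have hc := cG_pos (V := E 3)
  calc (1 + ‖z‖ / δ) ^ 2 * Gs (4 * a) z ≤ (3 * (1 + ‖z‖ / d)) ^ 2 * Gs (4 * a) z := by gcongr
    _ = 9 * ((1 + ‖z‖ / d) ^ 2 * Gs (4 * a) z) := by ring
    _ ≤ 9 * ((1 + ‖z‖ / d) ^ 4 * Gs (4 * a) z) := by gcongr
    _ = 9 * ((1 + ‖z‖ / d) ^ 4 * Gs (3 * d ^ 2) z) := by rw [hd2]
    _ ≤ 9 * (cG (E 3) * (64 * Gs (32 * δ ^ 2) z)) :=
        mul_le_mul_of_nonneg_left (h4.trans (mul_le_mul_of_nonneg_left h5 hc.le)) (by norm_num)
    _ = _ := by ring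

lemma KD {δ a : ℝ} (hδ : 0 < δ) (h1 : δ ^ 2 / 4 ≤ a) (h2 : a ≤ 4 * δ ^ 2) (z : E 3) :
    (1 + ‖z‖ / δ) * (δ * ‖D a z‖) ≤ 1152 * cG (E 3) * Gs (32 * δ ^ 2) z := by
  have ha : 0 < a := lt_of_lt_of_le (by positivity) h1
  have hz := norm_nonneg z
  have hG := Gs_nonneg (show 0 < 4 * a by positivity) z
  have h3 := D_norm ha z
  have h4 : δ * (1 / (2 * a) * (‖z‖ * Gs (4 * a) z)) ≤ 2 * (‖z‖ / δ * Gs (4 * a) z) := by
    have h5 : δ * (1 / (2 * a)) ≤ 2 / δ := by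
      rw [mul_one_div, div_le_div_iff₀ (by positivity) hδ]
      nlinarith
    calc δ * (1 / (2 * a) * (‖z‖ * Gs (4 * a) z)) = (δ * (1 / (2 * a))) * (‖z‖ * Gs (4 * a) z) := by
          ring
      _ ≤ (2 / δ) * (‖z‖ * Gs (4 * a) z) := by gcongr
      _ = _ := by ring
  have h6 := KE hδ h1 h2 z
  have h7 : 0 ≤ ‖z‖ / δ := by positivity
  calc (1 + ‖z‖ / δ) * (δ * ‖D a z‖)
      ≤ (1 + ‖z‖ / δ) * (δ * (1 / (2 * a) * (‖z‖ * Gs (4 * a) z))) := by gcongr
    _ ≤ (1 + ‖z‖ / δ) * (2 * (‖z‖ / δ * Gs (4 * a) z)) := by gcongr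
    _ ≤ (1 + ‖z‖ / δ) * (2 * ((1 + ‖z‖ / δ) * Gs (4 * a) z)) := by gcongr; linarith
    _ = 2 * ((1 + ‖z‖ / δ) ^ 2 * Gs (4 * a) z) := by ring
    _ ≤ 2 * (576 * cG (E 3) * Gs (32 * δ ^ 2) z) := by gcongr
    _ = _ := by ring

/-- the scale of the measure -/
noncomputable def dd (δ : ℝ) : ℝ := δ * Real.sqrt (16 / 3)

lemma dd_pos {δ : ℝ} (hδ : 0 < δ) : 0 < dd δ := by unfold dd; positivity

lemma dd_sq (δ : ℝ) : 6 * dd δ ^ 2 = 32 * δ ^ 2 := by
  unfold dd
  rw [mul_pow, Real.sq_sqrt (by norm_num)]; ring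

/-- integration of an increment bound against a kernel -/
lemma bd {g H : E 3 → ℝ≥0∞} (hg : Measurable g) (hH : Measurable H) {δ c : ℝ} (hδ : 0 < δ)
    (hc : 0 ≤ c) {N : E 3 → ℝ}
    (hN : ∀ z, (1 + ‖z‖ / δ) * N z ≤ c * Gs (32 * δ ^ 2) z) {W : ℝ≥0∞} (hW : W ≠ ∞) (y : E 3)
    {T : E 3 → ℝ≥0∞}
    (hT : ∀ z, T z ≤ W * ENNReal.ofReal (1 + ‖z‖ / δ) *
      (g y + (g (y - z) + ∫⁻ s in Icc (0 : ℝ) 1, H (y - s • z)))) :
    ∫⁻ z, T z * ENNReal.ofReal (N z) ≤ W * (ENNReal.ofReal c * Gb (dd δ) g H y) := by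
  have hdp := dd_pos hδ
  have hG := cG_pos (V := E 3)
  have := Pm_fin (V := E 3) hdp
  have hm1 : Measurable fun z : E 3 => g (y - z) := hg.comp (measurable_const.sub measurable_id)
  have hm2 : Measurable fun z : E 3 => ∫⁻ s in Icc (0 : ℝ) 1, H (y - s • z) := by
    have h1 : Measurable (fun z : E 3 => ((y, z) : E 3 × E 3)) := by fun_prop
    exact (seg_meas hH).comp h1
  have hmc : Measurable fun z : E 3 =>
      (g y + (g (y - z) + ∫⁻ s in Icc (0 : ℝ) 1, H (y - s • z))) :=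
    measurable_const.add (hm1.add hm2)
  have hmG : Measurable fun z : E 3 => ENNReal.ofReal (Gs (6 * dd δ ^ 2) z) :=
    (Gs_cont _).measurable.ennreal_ofReal
  calc ∫⁻ z, T z * ENNReal.ofReal (N z)
      ≤ ∫⁻ z, (W * ENNReal.ofReal c) * (ENNReal.ofReal (Gs (6 * dd δ ^ 2) z) *
          (g y + (g (y - z) + ∫⁻ s in Icc (0 : ℝ) 1, H (y - s • z)))) := by
        apply lintegral_mono
        intro z
        beta_reduce
        have h5 := hT z
        have h6 := hN z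
        have hz : 0 ≤ 1 + ‖z‖ / δ := by have := norm_nonneg z; positivity
        generalize (g y + (g (y - z) + ∫⁻ s in Icc (0 : ℝ) 1, H (y - s • z))) = S at *
        calc T z * ENNReal.ofReal (N z)
            ≤ (W * ENNReal.ofReal (1 + ‖z‖ / δ) * S) * ENNReal.ofReal (N z) :=
              mul_le_mul' h5 le_rfl
          _ = W * (ENNReal.ofReal ((1 + ‖z‖ / δ) * N z)) * S := by
              rw [ENNReal.ofReal_mul hz]; ring
          _ ≤ W * (ENNReal.ofReal (c * Gs (32 * δ ^ 2) z)) * S := by gcongr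
          _ = _ := by
              rw [ENNReal.ofReal_mul hc, dd_sq]; ring
    _ = (W * ENNReal.ofReal c) * ∫⁻ z,
          (g y + (g (y - z) + ∫⁻ s in Icc (0 : ℝ) 1, H (y - s • z))) ∂(Pm (dd δ)) := by
        rw [lintegral_const_mul' _ _ (ENNReal.mul_ne_top hW ENNReal.ofReal_ne_top)]
        unfold Pm
        rw [lintegral_withDensity_eq_lintegral_mul _ hmG hmc]
        rfl
    _ = (W * ENNReal.ofReal c) * (g y + ((∫⁻ z, g (y - z) ∂(Pm (dd δ))) +
        ∫⁻ z, (∫⁻ s in Icc (0 : ℝ) 1, H (y - s • z)) ∂(Pm (dd δ)))) := by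
        rw [lintegral_add_left measurable_const, lintegral_const, Pm_univ hdp, mul_one,
          lintegral_add_left hm1]
    _ ≤ _ := by
        rw [mul_assoc]
        refine mul_le_mul' le_rfl (mul_le_mul' le_rfl ?_)
        unfold Gb
        refine le_mul_of_one_le_left' ?_
        rw [← ENNReal.ofReal_one]
        apply ENNReal.ofReal_le_ofReal
        unfold cG
        have : (1 : ℝ) ≤ 2 ^ (Module.finrank ℝ (E 3) / 2 : ℝ) :=
          Real.one_le_rpow (by norm_num) (by positivity)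
        linarith

lemma two_ofReal (r : ℝ) : 2 * ENNReal.ofReal r = ENNReal.ofReal (2 * r) := by
  rw [ENNReal.ofReal_mul (by norm_num)]; simp

/-- the Whitney inequality -/
lemma whit {f : E 3 → ℂ} (hf : ContDiff ℝ 1 f) (K : Set (E 3)) (y z : E 3) :
    ENNReal.ofReal (infDist y K) * ‖f y - f (y - z)‖ₑ ≤ ‖z‖ₑ * (2 * ‖f y‖ₑ + (2 * ‖f (y - z)‖ₑ +
      ∫⁻ s in Icc (0 : ℝ) 1, 2 * (ENNReal.ofReal (infDist (y - s • z) K) *
        ‖fderiv ℝ f (y - s • z)‖ₑ))) := by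
  have hzn := norm_nonneg z
  set d := infDist y K with hd
  have hd0 : 0 ≤ d := infDist_nonneg
  by_cases hz : ‖z‖ ≤ d / 2
  · have hder : ∀ s ∈ Icc (0 : ℝ) 1, HasDerivAt (fun s : ℝ => f (y - s • z))
        (fderiv ℝ f (y - s • z) (-z)) s := by
      intro s hs
      have hdf : DifferentiableAt ℝ f (y - s • z) := (hf.differentiable one_ne_zero) _
      have hline : HasDerivAt (fun s : ℝ => y - s • z) (-z) s := by
        have := ((hasDerivAt_id s).smul_const z).const_sub y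
        simpa using this
      exact hdf.hasFDerivAt.comp_hasDerivAt s hline
    have hcont : Continuous (fun s : ℝ => fderiv ℝ f (y - s • z) (-z)) := by
      have h3 : Continuous (fun x => fderiv ℝ f x) := hf.continuous_fderiv one_ne_zero
      exact (h3.comp (by fun_prop)).clm_apply continuous_const
    have hFTC : ∫ s in (0 : ℝ)..1, fderiv ℝ f (y - s • z) (-z) = f (y - z) - f y := by
      rw [intervalIntegral.integral_eq_sub_of_hasDerivAt (f := fun s : ℝ => f (y - s • z))]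
      · simp
      · intro s hs
        rw [uIcc_of_le zero_le_one] at hs
        exact hder s hs
      · exact hcont.intervalIntegrable _ _
    have hb : ‖f y - f (y - z)‖ₑ ≤ ∫⁻ s in Icc (0 : ℝ) 1, ‖fderiv ℝ f (y - s • z)‖ₑ * ‖z‖ₑ := by
      rw [← enorm_neg, neg_sub, ← hFTC,
        intervalIntegral.integral_of_le zero_le_one, ← integral_Icc_eq_integral_Ioc]
      refine (enorm_integral_le_lintegral_enorm _).trans ?_
      apply lintegral_mono
      intro s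
      beta_reduce
      have := (fderiv ℝ f (y - s • z)).le_opNorm (-z)
      rw [norm_neg] at this
      rw [← ofReal_norm, ← ofReal_norm, ← ofReal_norm, ← ENNReal.ofReal_mul (norm_nonneg _)]
      exact ENNReal.ofReal_le_ofReal this
    calc ENNReal.ofReal d * ‖f y - f (y - z)‖ₑ
        ≤ ENNReal.ofReal d * ∫⁻ s in Icc (0 : ℝ) 1, ‖fderiv ℝ f (y - s • z)‖ₑ * ‖z‖ₑ := by
          gcongr
      _ = ∫⁻ s in Icc (0 : ℝ) 1, ENNReal.ofReal d * (‖fderiv ℝ f (y - s • z)‖ₑ * ‖z‖ₑ) := by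
          rw [lintegral_const_mul' _ _ ENNReal.ofReal_ne_top]
      _ ≤ ∫⁻ s in Icc (0 : ℝ) 1, ‖z‖ₑ * (2 * (ENNReal.ofReal (infDist (y - s • z) K) *
            ‖fderiv ℝ f (y - s • z)‖ₑ)) := by
          apply setLIntegral_mono' measurableSet_Icc
          intro s hs
          have hds : d ≤ infDist (y - s • z) K + dist y (y - s • z) :=
            infDist_le_infDist_add_dist
          have hds2 : dist y (y - s • z) ≤ d / 2 := by
            rw [dist_eq_norm, sub_sub_cancel, norm_smul, Real.norm_of_nonneg hs.1]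
            calc s * ‖z‖ ≤ 1 * ‖z‖ := by gcongr; exact hs.2
              _ ≤ d / 2 := by linarith
          calc ENNReal.ofReal d * (‖fderiv ℝ f (y - s • z)‖ₑ * ‖z‖ₑ)
              ≤ (2 * ENNReal.ofReal (infDist (y - s • z) K)) *
                (‖fderiv ℝ f (y - s • z)‖ₑ * ‖z‖ₑ) := by
                gcongr
                rw [two_ofReal]
                apply ENNReal.ofReal_le_ofReal
                linarith
            _ = _ := by ring
      _ = ‖z‖ₑ * ∫⁻ s in Icc (0 : ℝ) 1, 2 * (ENNReal.ofReal (infDist (y - s • z) K) *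
            ‖fderiv ℝ f (y - s • z)‖ₑ) := by
          rw [lintegral_const_mul' _ _ enorm_ne_top]
      _ ≤ _ := by
          gcongr
          exact le_add_self.trans le_add_self
  · push Not at hz
    calc ENNReal.ofReal d * ‖f y - f (y - z)‖ₑ
        ≤ (2 * ‖z‖ₑ) * (‖f y‖ₑ + ‖f (y - z)‖ₑ) := by
          refine mul_le_mul' ?_ enorm_sub_le
          rw [← ofReal_norm z, two_ofReal]
          apply ENNReal.ofReal_le_ofReal
          linarith
      _ = ‖z‖ₑ * (2 * ‖f y‖ₑ + 2 * ‖f (y - z)‖ₑ) := by ring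
      _ ≤ _ := by
          gcongr
          exact le_self_add

/-- the increments -/
lemma incr {f : E 3 → ℂ} (hf : ContDiff ℝ 1 f) (K : Set (E 3)) {δ : ℝ} (hδ : 0 < δ) (y z : E 3) :
    ‖f y - f (y - z)‖ₑ ≤ wt K δ y * ENNReal.ofReal (1 + ‖z‖ / δ) *
      (2 * ‖f y‖ₑ + (2 * ‖f (y - z)‖ₑ +
      ∫⁻ s in Icc (0 : ℝ) 1, 2 * (ENNReal.ofReal (infDist (y - s • z) K) *
        ‖fderiv ℝ f (y - s • z)‖ₑ))) := by
  have hz := norm_nonneg z
  have hzd : 0 ≤ ‖z‖ / δ := by positivity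
  have h1 : ‖f y - f (y - z)‖ₑ ≤ (2 * ‖f y‖ₑ + (2 * ‖f (y - z)‖ₑ +
      ∫⁻ s in Icc (0 : ℝ) 1, 2 * (ENNReal.ofReal (infDist (y - s • z) K) *
        ‖fderiv ℝ f (y - s • z)‖ₑ))) := by
    refine (enorm_sub_le).trans (add_le_add ?_ (le_trans ?_ le_self_add))
    · exact le_mul_of_one_le_left' (by norm_num)
    · exact le_mul_of_one_le_left' (by norm_num)
  have h2 := whit hf K y z
  generalize (2 * ‖f y‖ₑ + (2 * ‖f (y - z)‖ₑ +
      ∫⁻ s in Icc (0 : ℝ) 1, 2 * (ENNReal.ofReal (infDist (y - s • z) K) *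
        ‖fderiv ℝ f (y - s • z)‖ₑ))) = S at *
  unfold wt
  by_cases hd : infDist y K ≤ δ
  · rw [max_eq_left hd, div_self hδ.ne', ENNReal.ofReal_one, one_mul]
    refine h1.trans (le_mul_of_one_le_left' ?_)
    rw [← ENNReal.ofReal_one]
    apply ENNReal.ofReal_le_ofReal
    linarith
  · push Not at hd
    rw [max_eq_right hd.le]
    set d := infDist y K with hdd
    have hd0 : 0 < d := hδ.trans hd
    have h3 : ‖f y - f (y - z)‖ₑ ≤ ENNReal.ofReal (‖z‖ / d) * S := by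
      have e1 : ‖f y - f (y - z)‖ₑ = (ENNReal.ofReal (1 / d) * ENNReal.ofReal d) *
          ‖f y - f (y - z)‖ₑ := by
        rw [← ENNReal.ofReal_mul (by positivity), one_div, inv_mul_cancel₀ hd0.ne',
          ENNReal.ofReal_one, one_mul]
      have e2 : ENNReal.ofReal (‖z‖ / d) = ENNReal.ofReal (1 / d) * ‖z‖ₑ := by
        rw [← ofReal_norm, ← ENNReal.ofReal_mul (by positivity)]
        congr 1; ring
      rw [e1, mul_assoc, e2, mul_assoc]
      exact mul_le_mul' le_rfl h2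
    refine h3.trans ?_
    rw [← ENNReal.ofReal_mul (by positivity)]
    refine mul_le_mul' (ENNReal.ofReal_le_ofReal ?_) le_rfl
    calc ‖z‖ / d = (δ / d) * (‖z‖ / δ) := by field_simp
      _ ≤ (δ / d) * (1 + ‖z‖ / δ) := by gcongr; linarith

/-- differentiation of a convolution -/
lemma der {f : E 3 → ℂ} (hf : Integrable f) {k : E 3 → ℂ} {D' : E 3 → (E 3 →L[ℝ] ℂ)}
    (hk : ∀ z, HasFDerivAt k (D' z) z) (hDc : Continuous D') {M : ℝ} (hkb : ∀ z, ‖k z‖ ≤ M)
    (hD : ∀ z, ‖D' z‖ ≤ M) (y : E 3) :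
    HasFDerivAt (fun y => ∫ x, f x * k (y - x)) (∫ x, f x • D' (y - x)) y := by
  have hkc : Continuous k := continuous_iff_continuousAt.mpr fun z => (hk z).continuousAt
  refine hasFDerivAt_integral_of_dominated_of_fderiv_le (𝕜 := ℝ) (s := univ)
    (F := fun y x => f x * k (y - x)) (F' := fun y x => f x • D' (y - x))
    (bound := fun x => ‖f x‖ * M) univ_mem ?_ ?_ ?_ ?_ ?_ ?_
  · exact Eventually.of_forall fun w => hf.1.mul
      (hkc.comp (continuous_const.sub continuous_id)).aestronglyMeasurable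
  · exact hf.mul_bdd (c := M) (hkc.comp (continuous_const.sub continuous_id)).aestronglyMeasurable
      (Eventually.of_forall fun x => hkb _)
  · exact hf.1.smul (hDc.comp (continuous_const.sub continuous_id)).aestronglyMeasurable
  · refine Eventually.of_forall fun x w _ => ?_
    rw [norm_smul]
    exact mul_le_mul_of_nonneg_left (hD _) (norm_nonneg _)
  · exact hf.norm.mul_const M
  · refine Eventually.of_forall fun x w _ => ?_
    have h1 : HasFDerivAt (fun w : E 3 => w - x) (ContinuousLinearMap.id ℝ (E 3)) w :=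
      (hasFDerivAt_id w).sub_const x
    have h2 := (hk (w - x)).comp w h1
    rw [ContinuousLinearMap.comp_id] at h2
    exact h2.const_mul (f x)

lemma Gs_le {c : ℝ} (hc : 0 < c) (z : E 3) :
    Gs c z ≤ (π * c) ^ (-(Module.finrank ℝ (E 3) / 2 : ℝ)) := by
  unfold Gs
  apply mul_le_of_le_one_right (by positivity)
  rw [Real.exp_le_one_iff]
  have : 0 ≤ ‖z‖ ^ 2 / c := by positivity
  rw [neg_div]; linarith

/-- the Gaussian and its derivative are bounded -/
lemma bdd {δ a : ℝ} (hδ : 0 < δ) (h1 : δ ^ 2 / 4 ≤ a) (h2 : a ≤ 4 * δ ^ 2) :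
    ∃ M : ℝ, ∀ z : E 3, ‖(Gs (4 * a) z : ℂ)‖ ≤ M ∧ ‖D a z‖ ≤ M := by
  have ha : 0 < a := lt_of_lt_of_le (by positivity) h1
  have hc := cG_pos (V := E 3)
  set P := (π * (32 * δ ^ 2)) ^ (-(Module.finrank ℝ (E 3) / 2 : ℝ)) with hP
  have hP0 : 0 ≤ P := by rw [hP]; positivity
  refine ⟨576 * cG (E 3) * P + 1152 * cG (E 3) * P / δ, fun z => ⟨?_, ?_⟩⟩
  · have h3 := KE hδ h1 h2 z
    have h4 := Gs_le (show 0 < 32 * δ ^ 2 by positivity) z
    have hG := Gs_nonneg (show 0 < 4 * a by positivity) z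
    have h5 : 1 ≤ (1 + ‖z‖ / δ) ^ 2 :=
      one_le_pow₀ (by have : 0 ≤ ‖z‖ / δ := by positivity
                      linarith)
    rw [Complex.norm_real, Real.norm_of_nonneg hG]
    calc Gs (4 * a) z = 1 * Gs (4 * a) z := by rw [one_mul]
      _ ≤ (1 + ‖z‖ / δ) ^ 2 * Gs (4 * a) z := by gcongr
      _ ≤ 576 * cG (E 3) * Gs (32 * δ ^ 2) z := h3
      _ ≤ 576 * cG (E 3) * P := by gcongr
      _ ≤ _ := le_add_of_nonneg_right (by positivity)
  · have h3 := KD hδ h1 h2 z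
    have h4 := Gs_le (show 0 < 32 * δ ^ 2 by positivity) z
    have h5 : δ * ‖D a z‖ ≤ 1152 * cG (E 3) * P := by
      calc δ * ‖D a z‖ = 1 * (δ * ‖D a z‖) := by rw [one_mul]
        _ ≤ (1 + ‖z‖ / δ) * (δ * ‖D a z‖) := by
            gcongr
            have : 0 ≤ ‖z‖ / δ := by positivity
            linarith
        _ ≤ 1152 * cG (E 3) * Gs (32 * δ ^ 2) z := h3
        _ ≤ 1152 * cG (E 3) * P := by gcongr
    calc ‖D a z‖ = (δ * ‖D a z‖) / δ := by field_simp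
      _ ≤ 1152 * cG (E 3) * P / δ := by gcongr
      _ ≤ _ := le_add_of_nonneg_left (by positivity)

lemma D_int {δ a : ℝ} (hδ : 0 < δ) (h1 : δ ^ 2 / 4 ≤ a) (h2 : a ≤ 4 * δ ^ 2) :
    Integrable (D a) := by
  have hc := cG_pos (V := E 3)
  refine Integrable.mono' (g := fun z => 1152 * cG (E 3) / δ * Gs (32 * δ ^ 2) z)
    ((Gs_integrable (by positivity)).const_mul _) (D_cont a).aestronglyMeasurable
    (Eventually.of_forall fun z => ?_)
  have h3 := KD hδ h1 h2 z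
  have h5 : δ * ‖D a z‖ ≤ 1152 * cG (E 3) * Gs (32 * δ ^ 2) z := by
    calc δ * ‖D a z‖ = 1 * (δ * ‖D a z‖) := by rw [one_mul]
      _ ≤ (1 + ‖z‖ / δ) * (δ * ‖D a z‖) := by
          gcongr
          have : 0 ≤ ‖z‖ / δ := by positivity
          linarith
      _ ≤ _ := h3
  calc ‖D a z‖ = (δ * ‖D a z‖) / δ := by field_simp
    _ ≤ 1152 * cG (E 3) * Gs (32 * δ ^ 2) z / δ := by gcongr
    _ = _ := by ring

lemma D_zero (a : ℝ) : ∫ z, D a z = 0 := by
  have h1 : ∫ z, D a (-z) = ∫ z, D a z := integral_neg_eq_self (D a) volume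
  simp_rw [D_neg] at h1
  rw [integral_neg] at h1
  have h2 : (∫ z, D a z) + ∫ z, D a z = 0 := by
    nth_rewrite 1 [← h1]
    exact neg_add_cancel _
  ext w
  have h3 := congrArg (fun L : E 3 →L[ℝ] ℂ => L w) h2
  simp only [FunLike.coe_add, Pi.add_apply, FunLike.coe_zero, Pi.zero_apply] at h3
  rw [FunLike.coe_zero, Pi.zero_apply]
  linear_combination h3 / 2

/-- convolutions, estimate by an integral of the increments -/
lemma est {F : Type*} [NormedAddCommGroup F] [NormedSpace ℂ F] [CompleteSpace F]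
    {f : E 3 → ℂ} (hf : Integrable f) {k : E 3 → F} (hk : Integrable k) (hkc : Continuous k)
    {M : ℝ} (hM : ∀ z, ‖k z‖ ≤ M) (h0 : ∫ z, k z = 0) (y : E 3) :
    ‖∫ x, f x • k (y - x)‖ₑ ≤ ∫⁻ z, ‖f y - f (y - z)‖ₑ * ‖k z‖ₑ := by
  have e1 : ∫ x, f x • k (y - x) = ∫ z, f (y - z) • k z := by
    rw [← integral_sub_left_eq_self (fun x => f x • k (y - x)) volume y]
    congr 1; funext z; rw [sub_sub_cancel]
  have hi : Integrable fun z => f (y - z) • k z := by
    have h1 : Integrable fun z => f (y - z) := hf.comp_sub_left y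
    exact h1.smul_bdd M hkc.aestronglyMeasurable (Eventually.of_forall hM)
  have e2 : ∫ z, f (y - z) • k z = ∫ z, (f (y - z) - f y) • k z := by
    simp_rw [sub_smul]
    rw [integral_sub hi (g := fun z => f y • k z) (hk.smul (f y)), integral_smul, h0, smul_zero,
      sub_zero]
  rw [e1, e2]
  refine (enorm_integral_le_lintegral_enorm _).trans (lintegral_mono fun z => ?_)
  rw [enorm_smul, ← enorm_neg (f (y - z) - f y), neg_sub]

/-- convolutions, plain estimate -/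
lemma est' {F : Type*} [NormedAddCommGroup F] [NormedSpace ℂ F]
    {f : E 3 → ℂ} {k : E 3 → F} (y : E 3) :
    ‖∫ x, f x • k (y - x)‖ₑ ≤ ∫⁻ z, ‖f (y - z)‖ₑ * ‖k z‖ₑ := by
  have e1 : ∫ x, f x • k (y - x) = ∫ z, f (y - z) • k z := by
    rw [← integral_sub_left_eq_self (fun x => f x • k (y - x)) volume y]
    congr 1; funext z; rw [sub_sub_cancel]
  rw [e1]
  refine (enorm_integral_le_lintegral_enorm _).trans (lintegral_mono fun z => ?_)
  rw [enorm_smul]

/-- the constant -/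
noncomputable def cc : ℝ := 2304 * cG (E 3)

lemma cc_pos : 0 < cc := by unfold cc; have := cG_pos (V := E 3); positivity

/-- the majorant -/
noncomputable def Ps (δ : ℝ) (g H : E 3 → ℝ≥0∞) (y : E 3) : ℝ≥0∞ :=
  ENNReal.ofReal cc * Gb (dd δ) (fun y => 2 * g y) (fun y => 2 * H y) y

lemma Ps_meas {δ : ℝ} (hδ : 0 < δ) {g H : E 3 → ℝ≥0∞} (hg : Measurable g) (hH : Measurable H) :
    Measurable (Ps δ g H) :=
  (Gb_meas (dd_pos hδ) (hg.const_mul _) (hH.const_mul _)).const_mul _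

lemma Ps_lp {p : ℝ} (hp : 1 ≤ p) {δ : ℝ} (hδ : 0 < δ) {g H : E 3 → ℝ≥0∞} (hg : Measurable g)
    (hH : Measurable H) :
    ∫⁻ y, Ps δ g H y ^ p ≤
      ENNReal.ofReal ((cc * (108 * cG (E 3)) * 2) ^ p) * ((∫⁻ y, g y ^ p) + ∫⁻ y, H y ^ p) := by
  have hp0 : 0 ≤ p := by linarith
  have hc := cc_pos
  have hG := cG_pos (V := E 3)
  have h2 : ∀ h : E 3 → ℝ≥0∞, ∫⁻ y, (2 * h y) ^ p = 2 ^ p * ∫⁻ y, h y ^ p := by
    intro h
    simp_rw [ENNReal.mul_rpow_of_nonneg _ _ hp0]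
    rw [lintegral_const_mul' _ _ (ENNReal.rpow_ne_top_of_nonneg hp0 (by norm_num))]
  have h3 := Gb_lp hp (dd_pos hδ) (hg.const_mul 2) (hH.const_mul 2)
  rw [h2, h2] at h3
  unfold Ps
  simp_rw [ENNReal.mul_rpow_of_nonneg _ _ hp0]
  rw [lintegral_const_mul' _ _ (ENNReal.rpow_ne_top_of_nonneg hp0 ENNReal.ofReal_ne_top)]
  refine (mul_le_mul' le_rfl h3).trans (le_of_eq ?_)
  rw [← ENNReal.ofReal_rpow_of_nonneg (by positivity) hp0,
    ENNReal.ofReal_mul (p := cc * (108 * cG (E 3))) (q := 2) (by positivity),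
    ENNReal.ofReal_mul (p := cc) (q := 108 * cG (E 3)) hc.le,
    ENNReal.mul_rpow_of_nonneg _ _ hp0, ENNReal.mul_rpow_of_nonneg _ _ hp0]
  simp only [ENNReal.ofReal_ofNat]
  ring

lemma ht_norm {a : ℝ} (ha : 0 ≤ a) (ξ : E 3) : ‖ht a ξ‖ ≤ 1 := by
  unfold ht
  rw [Complex.norm_real, Real.norm_of_nonneg (Real.exp_nonneg _), Real.exp_le_one_iff]
  have : 0 ≤ 4 * π ^ 2 * a * ‖ξ‖ ^ 2 := by positivity
  linarith

lemma ht_cont (a : ℝ) : Continuous (ht a) := by unfold ht; fun_prop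

lemma int_F (f : 𝓢(E 3, ℂ)) {a : ℝ} (ha : 0 ≤ a) :
    Integrable fun ξ => ht a ξ * 𝓕 (f : E 3 → ℂ) ξ := by
  have h1 : Integrable (𝓕 (f : E 3 → ℂ)) := by
    rw [← SchwartzMap.fourier_coe]
    exact (𝓕 f).integrable
  exact h1.bdd_mul (c := 1) (ht_cont a).aestronglyMeasurable
    (Eventually.of_forall fun ξ => ht_norm ha ξ)

lemma inv_sub {φ ψ : E 3 → ℂ} (h1 : Integrable φ) (h2 : Integrable ψ) (x : E 3) :
    inv (fun ξ => φ ξ - ψ ξ) x = inv φ x - inv ψ x := by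
  unfold inv
  have h : ∀ θ : E 3 → ℂ, Integrable θ →
      Integrable fun ξ => cexp (((2 * π * ⟪x, ξ⟫ : ℝ) : ℂ) * I) * θ ξ := by
    intro θ hθ
    refine hθ.bdd_mul (c := 1) (Continuous.aestronglyMeasurable (by fun_prop))
      (Eventually.of_forall fun ξ => ?_)
    rw [Complex.norm_exp_ofReal_mul_I]
  rw [← integral_sub (h φ h1) (h ψ h2)]
  congr 1; funext ξ; ring

lemma conv_int {f : E 3 → ℂ} (hf : Integrable f) {δ a : ℝ} (hδ : 0 < δ) (h1 : δ ^ 2 / 4 ≤ a)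
    (h2 : a ≤ 4 * δ ^ 2) (y : E 3) : Integrable fun x => f x * (Gs (4 * a) (y - x) : ℂ) := by
  obtain ⟨M, hM⟩ := bdd hδ h1 h2
  refine hf.mul_bdd (c := M) ?_ (Eventually.of_forall fun x => (hM _).1)
  have : Continuous fun x : E 3 => (Gs (4 * a) (y - x) : ℂ) :=
    continuous_ofReal.comp ((Gs_cont _).comp (continuous_const.sub continuous_id))
  exact this.aestronglyMeasurable

theorem t_PIE : S_PIE := by
  intro p hp
  have hcc := cc_pos
  have hG := cG_pos (V := E 3)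
  refine ⟨(cc * (108 * cG (E 3)) * 2) ^ p, by positivity, ?_⟩
  intro K f δ a b hδ ha1 ha2 hb1 hb2
  have ha : 0 < a := lt_of_lt_of_le (by positivity) ha1
  have hb : 0 < b := lt_of_lt_of_le (by positivity) hb1
  have hf : Integrable (f : E 3 → ℂ) := f.integrable
  have hfc : ContDiff ℝ 1 (f : E 3 → ℂ) := f.smooth 1
  set g : E 3 → ℝ≥0∞ := fun y => ‖f y‖ₑ with hg
  set H : E 3 → ℝ≥0∞ := fun y => ENNReal.ofReal (infDist y K) * ‖fderiv ℝ f y‖ₑ with hH
  have hgm : Measurable g := f.continuous.enorm.measurable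
  have hHm : Measurable H :=
    (continuous_infDist_pt K).measurable.ennreal_ofReal.mul
      (hfc.continuous_fderiv one_ne_zero).enorm.measurable
  set k : E 3 → ℂ := fun z => (Gs (4 * a) z : ℂ) - (Gs (4 * b) z : ℂ) with hk
  set D' : E 3 → (E 3 →L[ℝ] ℂ) := fun z => D a z - D b z with hD'
  have hkd : ∀ z, HasFDerivAt k (D' z) z := fun z => (D_deriv a z).sub (D_deriv b z)
  have hDc : Continuous D' := (D_cont a).sub (D_cont b)
  have hkc : Continuous k := continuous_iff_continuousAt.mpr fun z => (hkd z).continuousAt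
  obtain ⟨Ma, hMa⟩ := bdd hδ ha1 ha2
  obtain ⟨Mb, hMb⟩ := bdd hδ hb1 hb2
  have hkb : ∀ z, ‖k z‖ ≤ Ma + Mb := fun z =>
    (norm_sub_le _ _).trans (add_le_add (hMa z).1 (hMb z).1)
  have hDb : ∀ z, ‖D' z‖ ≤ Ma + Mb := fun z =>
    (norm_sub_le _ _).trans (add_le_add (hMa z).2 (hMb z).2)
  have hki : Integrable k :=
    (Gs_integrable (by positivity : 0 < 4 * a)).ofReal.sub
      (Gs_integrable (by positivity : 0 < 4 * b)).ofReal
  have hDi : Integrable D' := (D_int hδ ha1 ha2).sub (D_int hδ hb1 hb2)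
  have hk0 : ∫ z, k z = 0 := by
    rw [hk, integral_sub (Gs_integrable (by positivity : 0 < 4 * a)).ofReal
      (Gs_integrable (by positivity : 0 < 4 * b)).ofReal, integral_complex_ofReal,
      integral_complex_ofReal, Gs_integral (by positivity), Gs_integral (by positivity), sub_self]
  have hD0 : ∫ z, D' z = 0 := by
    rw [hD', integral_sub (D_int hδ ha1 ha2) (D_int hδ hb1 hb2), D_zero, D_zero, sub_self]
  have hrep : inv (fun ξ => (ht a ξ - ht b ξ) * 𝓕 (f : E 3 → ℂ) ξ) =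
      fun y => ∫ x, f x * k (y - x) := by
    funext y
    have e1 : (fun ξ => (ht a ξ - ht b ξ) * 𝓕 (f : E 3 → ℂ) ξ) =
        fun ξ => ht a ξ * 𝓕 (f : E 3 → ℂ) ξ - ht b ξ * 𝓕 (f : E 3 → ℂ) ξ := by
      funext ξ; ring
    rw [e1, inv_sub (int_F f ha.le) (int_F f hb.le), rep hf ha, rep hf hb,
      ← integral_sub (conv_int hf hδ ha1 ha2 y) (conv_int hf hδ hb1 hb2 y)]
    congr 1; funext x; rw [hk]; ring
  have hder : ∀ y, fderiv ℝ (inv (fun ξ => (ht a ξ - ht b ξ) * 𝓕 (f : E 3 → ℂ) ξ)) y =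
      ∫ x, f x • D' (y - x) := by
    intro y
    rw [hrep]
    exact (der hf hkd hDc hkb hDb y).fderiv
  have hinc := fun y z => incr hfc K hδ y z
  refine ⟨Ps δ g H, Ps_meas hδ hgm hHm, Ps_lp hp hδ hgm hHm, ?_, ?_⟩
  · intro y
    rw [hrep]
    have h1 := est hf hki hkc hkb hk0 y
    simp only [smul_eq_mul] at h1
    refine h1.trans ?_
    have h2 := bd (g := fun y => 2 * g y) (H := fun y => 2 * H y) (hgm.const_mul 2)
      (hHm.const_mul 2) hδ (c := cc) hcc.le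
      (N := fun z => Gs (4 * a) z + Gs (4 * b) z) ?_ (W := wt K δ y) ENNReal.ofReal_ne_top y
      (hinc y)
    · refine le_trans (lintegral_mono fun z => ?_) h2
      refine mul_le_mul' le_rfl ?_
      rw [← ofReal_norm]
      apply ENNReal.ofReal_le_ofReal
      refine (norm_sub_le _ _).trans (le_of_eq ?_)
      rw [Complex.norm_real, Complex.norm_real, Real.norm_of_nonneg (Gs_nonneg (by positivity) z),
        Real.norm_of_nonneg (Gs_nonneg (by positivity) z)]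
    · intro z
      have h3 := KE hδ ha1 ha2 z
      have h4 := KE hδ hb1 hb2 z
      have hGa := Gs_nonneg (show 0 < 4 * a by positivity) z
      have hGb := Gs_nonneg (show 0 < 4 * b by positivity) z
      have hG32 := Gs_nonneg (show 0 < 32 * δ ^ 2 by positivity) z
      have h5 : 0 ≤ ‖z‖ / δ := by positivity
      have h6 : 1 + ‖z‖ / δ ≤ (1 + ‖z‖ / δ) ^ 2 := by nlinarith
      calc (1 + ‖z‖ / δ) * (Gs (4 * a) z + Gs (4 * b) z)
          ≤ (1 + ‖z‖ / δ) ^ 2 * (Gs (4 * a) z + Gs (4 * b) z) := by gcongr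
        _ = (1 + ‖z‖ / δ) ^ 2 * Gs (4 * a) z + (1 + ‖z‖ / δ) ^ 2 * Gs (4 * b) z := by ring
        _ ≤ 576 * cG (E 3) * Gs (32 * δ ^ 2) z + 576 * cG (E 3) * Gs (32 * δ ^ 2) z :=
            add_le_add h3 h4
        _ = 1152 * (cG (E 3) * Gs (32 * δ ^ 2) z) := by ring
        _ ≤ 2304 * (cG (E 3) * Gs (32 * δ ^ 2) z) := by gcongr; norm_num
        _ = _ := by unfold cc; ring
  · intro y
    rw [hder]
    have h1 := est hf hDi hDc hDb hD0 y
    have h2 := bd (g := fun y => 2 * g y) (H := fun y => 2 * H y) (hgm.const_mul 2)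
      (hHm.const_mul 2) hδ (c := cc) hcc.le
      (N := fun z => δ * ‖D a z‖ + δ * ‖D b z‖) ?_ (W := wt K δ y) ENNReal.ofReal_ne_top y
      (hinc y)
    · refine le_trans ?_ h2
      calc ENNReal.ofReal δ * ‖∫ x, f x • D' (y - x)‖ₑ
          ≤ ENNReal.ofReal δ * ∫⁻ z, ‖f y - f (y - z)‖ₑ * ‖D' z‖ₑ := mul_le_mul' le_rfl h1
        _ = ∫⁻ z, ENNReal.ofReal δ * (‖f y - f (y - z)‖ₑ * ‖D' z‖ₑ) := by
            rw [lintegral_const_mul' _ _ ENNReal.ofReal_ne_top]
        _ ≤ _ := by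
            refine lintegral_mono fun z => ?_
            rw [mul_left_comm]
            refine mul_le_mul' le_rfl ?_
            rw [← ofReal_norm, ← ENNReal.ofReal_mul hδ.le]
            apply ENNReal.ofReal_le_ofReal
            rw [← mul_add]
            exact mul_le_mul_of_nonneg_left (norm_sub_le _ _) hδ.le
    · intro z
      have h3 := KD hδ ha1 ha2 z
      have h4 := KD hδ hb1 hb2 z
      calc (1 + ‖z‖ / δ) * (δ * ‖D a z‖ + δ * ‖D b z‖)
          = (1 + ‖z‖ / δ) * (δ * ‖D a z‖) + (1 + ‖z‖ / δ) * (δ * ‖D b z‖) := by ring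
        _ ≤ 1152 * cG (E 3) * Gs (32 * δ ^ 2) z + 1152 * cG (E 3) * Gs (32 * δ ^ 2) z :=
            add_le_add h3 h4
        _ = _ := by unfold cc; ring

theorem t_LOW : S_LOW := by
  intro p hp
  have hcc := cc_pos
  have hG := cG_pos (V := E 3)
  have hp0 : 0 < p := by linarith
  refine ⟨(cc * (108 * cG (E 3)) * 2) ^ p, by positivity, ?_⟩
  intro f δ a hδ ha1 ha2
  have ha : 0 < a := lt_of_lt_of_le (by positivity) ha1
  have hf : Integrable (f : E 3 → ℂ) := f.integrable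
  set g : E 3 → ℝ≥0∞ := fun y => ‖f y‖ₑ with hg
  set H : E 3 → ℝ≥0∞ := fun _ => 0 with hH
  have hgm : Measurable g := f.continuous.enorm.measurable
  have hHm : Measurable H := measurable_const
  have hrep : inv (fun ξ => ht a ξ * 𝓕 (f : E 3 → ℂ) ξ) =
      fun y => ∫ x, f x * (Gs (4 * a) (y - x) : ℂ) := by
    funext y; exact rep hf ha y
  obtain ⟨M, hM⟩ := bdd hδ ha1 ha2
  have hder : ∀ y, fderiv ℝ (inv (fun ξ => ht a ξ * 𝓕 (f : E 3 → ℂ) ξ)) y =
      ∫ x, f x • D a (y - x) := by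
    intro y
    rw [hrep]
    exact (der hf (D_deriv a) (D_cont a) (fun z => (hM z).1) (fun z => (hM z).2) y).fderiv
  have hT : ∀ y z, ‖f (y - z)‖ₑ ≤ 1 * ENNReal.ofReal (1 + ‖z‖ / δ) *
      (2 * g y + (2 * g (y - z) + ∫⁻ s in Icc (0 : ℝ) 1, 2 * H (y - s • z))) := by
    intro y z
    have h1 : (1 : ℝ≥0∞) ≤ 1 * ENNReal.ofReal (1 + ‖z‖ / δ) := by
      rw [one_mul, ← ENNReal.ofReal_one]
      apply ENNReal.ofReal_le_ofReal
      have : 0 ≤ ‖z‖ / δ := by positivity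
      linarith
    refine le_trans ?_ (le_mul_of_one_le_left' h1)
    refine le_trans ?_ le_add_self
    refine le_trans ?_ le_self_add
    exact le_mul_of_one_le_left' (by norm_num)
  refine ⟨Ps δ g H, Ps_meas hδ hgm hHm, ?_, ?_, ?_⟩
  · refine (Ps_lp hp hδ hgm hHm).trans (le_of_eq ?_)
    simp [hH, ENNReal.zero_rpow_of_pos hp0, hg]
  · intro y
    rw [hrep]
    have h1 := est' (f := f) (k := fun z => (Gs (4 * a) z : ℂ)) y
    simp only [smul_eq_mul] at h1
    refine h1.trans ?_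
    have h2 := bd (g := fun y => 2 * g y) (H := fun y => 2 * H y) (hgm.const_mul 2)
      (hHm.const_mul 2) hδ (c := cc) hcc.le
      (N := fun z => Gs (4 * a) z) ?_ (W := 1) ENNReal.one_ne_top y
      (T := fun z => ‖f (y - z)‖ₑ) (hT y)
    · rw [one_mul] at h2
      refine le_trans (lintegral_mono fun z => ?_) h2
      refine mul_le_mul' le_rfl ?_
      rw [← ofReal_norm, Complex.norm_real, Real.norm_of_nonneg (Gs_nonneg (by positivity) z)]
    · intro z
      have h3 := KE hδ ha1 ha2 z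
      have hGa := Gs_nonneg (show 0 < 4 * a by positivity) z
      have hG32 := Gs_nonneg (show 0 < 32 * δ ^ 2 by positivity) z
      have h5 : 0 ≤ ‖z‖ / δ := by positivity
      have h6 : 1 + ‖z‖ / δ ≤ (1 + ‖z‖ / δ) ^ 2 := by nlinarith
      calc (1 + ‖z‖ / δ) * Gs (4 * a) z ≤ (1 + ‖z‖ / δ) ^ 2 * Gs (4 * a) z := by gcongr
        _ ≤ 576 * cG (E 3) * Gs (32 * δ ^ 2) z := h3
        _ = 576 * (cG (E 3) * Gs (32 * δ ^ 2) z) := by ring
        _ ≤ 2304 * (cG (E 3) * Gs (32 * δ ^ 2) z) := by gcongr; norm_num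
        _ = _ := by unfold cc; ring
  · intro y
    rw [hder]
    have h1 := est' (f := f) (k := D a) y
    have h2 := bd (g := fun y => 2 * g y) (H := fun y => 2 * H y) (hgm.const_mul 2)
      (hHm.const_mul 2) hδ (c := cc) hcc.le
      (N := fun z => δ * ‖D a z‖) ?_ (W := 1) ENNReal.one_ne_top y
      (T := fun z => ‖f (y - z)‖ₑ) (hT y)
    · rw [one_mul] at h2
      refine le_trans ?_ h2
      calc ENNReal.ofReal δ * ‖∫ x, f x • D a (y - x)‖ₑ
          ≤ ENNReal.ofReal δ * ∫⁻ z, ‖f (y - z)‖ₑ * ‖D a z‖ₑ := mul_le_mul' le_rfl h1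
        _ = ∫⁻ z, ENNReal.ofReal δ * (‖f (y - z)‖ₑ * ‖D a z‖ₑ) := by
            rw [lintegral_const_mul' _ _ ENNReal.ofReal_ne_top]
        _ ≤ _ := by
            refine lintegral_mono fun z => ?_
            rw [mul_left_comm]
            refine mul_le_mul' le_rfl ?_
            rw [← ofReal_norm, ← ENNReal.ofReal_mul hδ.le]
    · intro z
      have h3 := KD hδ ha1 ha2 z
      have hG32 := Gs_nonneg (show 0 < 32 * δ ^ 2 by positivity) z
      calc (1 + ‖z‖ / δ) * (δ * ‖D a z‖) ≤ 1152 * cG (E 3) * Gs (32 * δ ^ 2) z := h3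
        _ = 1152 * (cG (E 3) * Gs (32 * δ ^ 2) z) := by ring
        _ ≤ 2304 * (cG (E 3) * Gs (32 * δ ^ 2) z) := by gcongr; norm_num
        _ = _ := by unfold cc; ring

end Pool.Agent.U88.WV.PIE
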